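import Pool.Agent.H78.XQ.HWT
import Pool.Agent.H75.OM.TA

/-!
# HW2: a conjunction on strings of given weight
-/

set_option autoImplicit false

namespace Pool.Agent.H67.OMN

open Finset Pool.Agent.H6.NB Pool.Agent.H70.OQ Pool.Agent.H70.EH Pool.Agent.H70.EI
open Pool.Agent.H78.XQ Pool.Agent.H75.OM Pool.Agent.H78.XQ.HWT
open Pool.Agent.H68.AC (PA Wt fd Ext ind)

theorem rt_pos {w : ℕ} (d : ℕ) (hw : 1 ≤ w) : 0 < rt w d := by
  have hwr : (1 : ℝ) ≤ w := by exact_mod_cast hw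
  unfold rt
  positivity

theorem rt_le_one {w : ℕ} (d : ℕ) (hw : 1 ≤ w) : rt w d ≤ 1 := by
  have hwr : (1 : ℝ) ≤ w := by exact_mod_cast hw
  unfold rt
  refine pow_le_one₀ (by positivity) ?_
  rw [div_le_one (by positivity)]
  linarith

theorem rt_mul (w d : ℕ) (hw : 1 ≤ w) : (128 * (w : ℝ)) ^ (d + 1) * rt w d = 1 := by
  have hwr : (1 : ℝ) ≤ w := by exact_mod_cast hw
  unfold rt
  rw [← mul_pow]
  have : 128 * (w : ℝ) * (1 / (128 * w)) = 1 := by field_simp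
  rw [this, one_pow]

theorem pf_HW2 (h1 : T_HOE) (h2 : T_TRE) (h3 : T_EXC) (h4 : T_SW2) : T_HW2 := by
  intro V _ _ _ S₁ d₁ w₁ S₂ d₂ w₂ W δ g h hw₁ hw₂ hδ hg hh hW
  obtain ⟨Bad, hBad, hGood⟩ := h4 V S₁ d₁ w₁ S₂ d₂ w₂ g h hw₁ hw₂ hg hh
  obtain ⟨w, hwe⟩ : ∃ w : ℕ, w = w₁ + w₂ := ⟨_, rfl⟩
  have hw : 1 ≤ w := by omega
  have hwr : (1 : ℝ) ≤ w := by exact_mod_cast hw
  have hwc : (w₁ : ℝ) + w₂ = w := by rw [hwe]; push_cast; ring
  have hM : (0 : ℝ) < Fintype.card V := by exact_mod_cast Fintype.card_pos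
  obtain ⟨M, hMe⟩ : ∃ M : ℝ, M = Fintype.card V := ⟨_, rfl⟩
  obtain ⟨q, hq⟩ : ∃ q : ℝ, q = rt w₁ d₁ * rt w₂ d₂ := ⟨_, rfl⟩
  obtain ⟨L, hL⟩ : ∃ L : ℝ, L = ir w₁ d₁ w₂ d₂ := ⟨_, rfl⟩
  obtain ⟨e₀, he₀⟩ : ∃ e₀ : ℝ, e₀ = er S₁ d₁ w₁ + er S₂ d₂ w₂ := ⟨_, rfl⟩
  have hq0 : 0 < q := by rw [hq]; exact mul_pos (rt_pos _ hw₁) (rt_pos _ hw₂)
  have hq1 : q ≤ 1 := by
    rw [hq]
    exact mul_le_one₀ (rt_le_one _ hw₁) (rt_pos _ hw₂).le (rt_le_one _ hw₂)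
  have hL1 : 1 ≤ L := by
    rw [hL]
    unfold ir
    have e1 : (1 : ℝ) ≤ (128 * (w₁ : ℝ)) ^ (d₁ + 1) := by
      have : (1 : ℝ) ≤ w₁ := by exact_mod_cast hw₁
      exact one_le_pow₀ (by linarith)
    have e2 : (1 : ℝ) ≤ (128 * (w₂ : ℝ)) ^ (d₂ + 1) := by
      have : (1 : ℝ) ≤ w₂ := by exact_mod_cast hw₂
      exact one_le_pow₀ (by linarith)
    nlinarith
  have hLp : L * q ^ 1 = 1 := by
    rw [hL, hq, pow_one]
    unfold ir
    have e1 := rt_mul w₁ d₁ hw₁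
    have e2 := rt_mul w₂ d₂ hw₂
    calc (128 * (w₁ : ℝ)) ^ (d₁ + 1) * (128 * (w₂ : ℝ)) ^ (d₂ + 1) * (rt w₁ d₁ * rt w₂ d₂) =
        ((128 * (w₁ : ℝ)) ^ (d₁ + 1) * rt w₁ d₁) * ((128 * (w₂ : ℝ)) ^ (d₂ + 1) * rt w₂ d₂) := by
          ring
      _ = 1 := by rw [e1, e2, one_mul]
  have hH := h1 V 1 q δ hq0 hq1 hδ
  rw [← hq, ← he₀] at hBad
  rw [← hwe] at hGood
  rw [← hMe] at hW hM hH ⊢
  rw [← hL, hwc, ← he₀]
  obtain ⟨f, hfe⟩ : ∃ f : (V → Bool) → Bool, f = fun y => g y && h y := ⟨_, rfl⟩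
  have hGood' : ∀ R, ¬ Bad R → ∃ t : Pool.Agent.H68.AC.DT V, t.depth ≤ w ∧
      ∀ y, Ext (fd R 1) y → f y = t.eval y := by
    rw [hfe]
    exact hGood
  obtain ⟨F, hF⟩ : ∃ F : (V → Bool) → ℝ, F = fun y => bi (f y) := ⟨_, rfl⟩
  have hFg : (fun y => bi (g y && h y)) = F := by rw [hF, hfe]
  rw [hFg]
  have hF0 : ∀ y, 0 ≤ F y := fun y => by rw [hF]; exact (bi_01 _).1
  have hF1 : ∀ y, F y ≤ 1 := fun y => by rw [hF]; exact (bi_01 _).2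
  have hmF := mn_01 F hF0 hF1
  have hwm := wm_nonneg (fun _ => none) W F hF0
  have hexp : 0 ≤ 4 * Real.exp (-(M * δ ^ 2 / 4)) := by positivity
  have hS0 : 0 ≤ e₀ := by
    rw [he₀]
    unfold er
    positivity
  by_cases hε : 1 ≤ (12 * w * δ + 4 * w ^ 2 / M) * L
  · have : (1 - (12 * w * δ + 4 * w ^ 2 / M) * L) * mn F ≤ 0 :=
      mul_nonpos_of_nonpos_of_nonneg (by linarith) hmF.1
    linarith
  push Not at hε
  obtain ⟨p, hp⟩ : ∃ p : ℝ, p = q ^ 1 := ⟨_, rfl⟩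
  rw [← hp] at hLp hH
  have hp0 : 0 < p := by rw [hp]; positivity
  obtain ⟨η, hη⟩ : ∃ η : ℝ, η = (6 * δ + 2 * w / M) * L := ⟨_, rfl⟩
  have hη0 : 0 ≤ η := by rw [hη]; positivity
  have hεη : (12 * w * δ + 4 * w ^ 2 / M) * L = 2 * w * η := by
    rw [hη]
    field_simp
    ring
  rw [hεη] at hε ⊢
  have hδp : δ ≤ p / 2 := by
    have h1 : 12 * w * δ * L ≤ 2 * w * η := by
      rw [← hεη]
      have : 0 ≤ 4 * (w : ℝ) ^ 2 / M := by positivity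
      exact mul_le_mul_of_nonneg_right (by linarith) (by linarith)
    have h2 : 12 * δ * L ≤ 12 * w * δ * L := by
      have : 0 ≤ δ * L := mul_nonneg hδ (by linarith)
      nlinarith
    have h3 : δ * L ≤ 1 / 12 := by linarith
    have h4 : δ = δ * L * p := by rw [mul_assoc, hLp, mul_one]
    rw [h4]
    have := mul_le_mul_of_nonneg_right h3 hp0.le
    linarith
  have hηM : η * (p * M / 2) = 3 * δ * M + w := by
    rw [hη]
    have h1 : (6 * δ + 2 * w / M) * L * (p * M / 2) = (6 * δ + 2 * w / M) * (M / 2) * (L * p) := by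
      ring
    rw [h1, hLp]
    field_simp
    ring
  have hpt : ∀ R : Fin 1 → PA V, (1 - 2 * w * η) * mn (rst (fd R 1) F) -
      (ind (Bad R) + ind (¬ (|(nv (fd R 1) none : ℝ) - p * M| ≤ δ * M ∧
        |(nv (fd R 1) (some true) : ℝ) - (1 - p) / 2 * M| ≤ δ * M))) ≤
      wm (fd R 1) W F := by
    intro R
    have hr := mn_01 (rst (fd R 1) F) (fun y => hF0 _) (fun y => hF1 _)
    have hw0 := wm_nonneg (fd R 1) W F hF0
    have hη3 : 0 ≤ 2 * w * η := by positivity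
    have hle : (1 - 2 * w * η) * mn (rst (fd R 1) F) ≤ 1 := by nlinarith [hr.1, hr.2]
    by_cases k1 : Bad R
    · have e1 : ind (Bad R) = 1 := by unfold ind; rw [if_pos k1]
      have e2 := ind_nonneg (¬ (|(nv (fd R 1) none : ℝ) - p * M| ≤ δ * M ∧
        |(nv (fd R 1) (some true) : ℝ) - (1 - p) / 2 * M| ≤ δ * M))
      linarith
    by_cases k2 : |(nv (fd R 1) none : ℝ) - p * M| ≤ δ * M ∧
        |(nv (fd R 1) (some true) : ℝ) - (1 - p) / 2 * M| ≤ δ * M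
    · have e1 := ind_nonneg (Bad R)
      have e2 := ind_nonneg (¬ (|(nv (fd R 1) none : ℝ) - p * M| ≤ δ * M ∧
        |(nv (fd R 1) (some true) : ℝ) - (1 - p) / 2 * M| ≤ δ * M))
      obtain ⟨t, ht, hft⟩ := hGood' R k1
      have k3 := good h2 (fd R 1) W w f t ht hft M δ p η hp0 hη0 hδ hM hδp hηM hε hw hW
        k2.1 k2.2
      rw [← hF] at k3
      linarith
    · have e1 := ind_nonneg (Bad R)
      have e2 : ind (¬ (|(nv (fd R 1) none : ℝ) - p * M| ≤ δ * M ∧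
        |(nv (fd R 1) (some true) : ℝ) - (1 - p) / 2 * M| ≤ δ * M)) = 1 := by
        unfold ind
        rw [if_pos k2]
      linarith
  have hW0 : ∀ R : Fin 1 → PA V, 0 ≤ Wt q (1 / 2) R := fun R =>
    Pool.Agent.H90.AC.Wt_nonneg hq0.le hq1 (by norm_num) (by norm_num) R
  have hsum := Finset.sum_le_sum fun (R : Fin 1 → PA V) (_ : R ∈ univ) =>
    mul_le_mul_of_nonneg_left (hpt R) (hW0 R)
  have hE := h3 V 1 q W F hq0.le hq1 hF0
  have hmn := Pool.Agent.H70.EH.RL2.sum_mn 1 q F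
  have e : ∑ R : Fin 1 → PA V, Wt q (1 / 2) R *
      ((1 - 2 * w * η) * mn (rst (fd R 1) F) -
      (ind (Bad R) + ind (¬ (|(nv (fd R 1) none : ℝ) - p * M| ≤ δ * M ∧
        |(nv (fd R 1) (some true) : ℝ) - (1 - p) / 2 * M| ≤ δ * M)))) =
      (1 - 2 * w * η) * (∑ R : Fin 1 → PA V, Wt q (1 / 2) R * mn (rst (fd R 1) F)) -
      (∑ R : Fin 1 → PA V, Wt q (1 / 2) R * ind (Bad R) +
        ∑ R : Fin 1 → PA V, Wt q (1 / 2) R *
          ind (¬ (|(nv (fd R 1) none : ℝ) - p * M| ≤ δ * M ∧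
        |(nv (fd R 1) (some true) : ℝ) - (1 - p) / 2 * M| ≤ δ * M))) := by
    rw [Finset.mul_sum, ← Finset.sum_add_distrib, ← Finset.sum_sub_distrib]
    refine Finset.sum_congr rfl fun R _ => ?_
    ring
  rw [e, hmn] at hsum
  linarith

end Pool.Agent.H67.OMN
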